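import Pool.Agent.H90.SPW.Targets

/-! Row NA of `spa_modules`: the uses which are not amplified. -/

set_option autoImplicit false

open Finset Pool.Agent.H90.SPW
open scoped BigOperators Classical

namespace Pool.Agent.H79.SPW

theorem inW_nonneg {X E Y : Type} [Fintype X] [Fintype E] (c : Ch X E Y) (z : X) (y : Y) :
    0 ≤ c.inW z y := by
  unfold Ch.inW
  refine Finset.sum_nonneg fun e _ => ?_
  split_ifs
  · exact c.use_nonneg y e
  · exact le_rfl

theorem pf_NA : T_NA := by
  intro X E Y _ _ c Lam hLam h x x' y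
  unfold Ch.Occ Ch.OccA Ch.BW
  rw [Finset.mul_sum, ← Finset.sum_add_distrib]
  refine Finset.sum_le_sum fun t _ => ?_
  have h1 : ∑ e, c.P t x (c.src e) * c.use y e * c.P (h - 1 - t) (c.tgt e) x' =
      ∑ e, (if c.Amp Lam t x (c.tgt e) y then
        c.P t x (c.src e) * c.use y e * c.P (h - 1 - t) (c.tgt e) x' else 0) +
      ∑ e, (if c.Amp Lam t x (c.tgt e) y then 0 else
        c.P t x (c.src e) * c.use y e * c.P (h - 1 - t) (c.tgt e) x') := by
    rw [← Finset.sum_add_distrib]
    refine Finset.sum_congr rfl fun e _ => ?_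
    split_ifs
    · rw [add_zero]
    · rw [zero_add]
  have h2 : ∑ e, (if c.Amp Lam t x (c.tgt e) y then 0 else
        c.P t x (c.src e) * c.use y e * c.P (h - 1 - t) (c.tgt e) x') =
      ∑ z, (if c.Amp Lam t x z y then 0 else c.inA t x z y * c.P (h - 1 - t) z x') := by
    have h3 : ∀ z, (if c.Amp Lam t x z y then 0 else c.inA t x z y * c.P (h - 1 - t) z x') =
        ∑ e, (if c.tgt e = z then (if c.Amp Lam t x z y then 0 else
          c.P t x (c.src e) * c.use y e * c.P (h - 1 - t) z x') else 0) := by
      intro z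
      by_cases h4 : c.Amp Lam t x z y
      · simp [h4]
      · simp only [h4, if_false]
        unfold Ch.inA
        rw [Finset.sum_mul]
        refine Finset.sum_congr rfl fun e _ => ?_
        split_ifs
        · rfl
        · rw [zero_mul]
    simp only [h3]
    rw [Finset.sum_comm]
    refine Finset.sum_congr rfl fun e _ => ?_
    rw [Finset.sum_ite_eq, if_pos (Finset.mem_univ _)]
  rw [h1, h2]
  refine add_le_add_right ?_ _
  rw [Finset.mul_sum]
  refine Finset.sum_le_sum fun z _ => ?_
  have hP := c.P_nonneg (h - 1 - t) z x'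
  have hP' := c.P_nonneg (t + 1) x z
  have hW := inW_nonneg c z y
  split_ifs with h4
  · positivity
  · unfold Ch.Amp at h4
    push Not at h4
    calc c.inA t x z y * c.P (h - 1 - t) z x' ≤
        (Lam * c.inW z y * c.P (t + 1) x z) * c.P (h - 1 - t) z x' :=
          mul_le_mul_of_nonneg_right h4.le hP
      _ = _ := by ring

end Pool.Agent.H79.SPW
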