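import Pool.Agent.H90.SPW.Targets

/-! Row P2 of `spa_modules`: pairs from a state. -/

set_option autoImplicit false

open Finset Pool.Agent.H90.SPW
open scoped BigOperators Classical

namespace Pool.Agent.H79.SPW

theorem shift_le (f : ℕ → ℝ) (hf : ∀ t, 0 ≤ f t) (h t₁ : ℕ) :
    ∑ t₂ ∈ range h, (if t₁ < t₂ then f (t₂ - t₁ - 1) else 0) ≤ ∑ t ∈ range h, f t := by
  rw [← Finset.sum_filter]
  have h1 : ∑ t₂ ∈ (range h).filter (fun t₂ => t₁ < t₂), f (t₂ - t₁ - 1) =
      ∑ t ∈ ((range h).filter (fun t₂ => t₁ < t₂)).image (fun t₂ => t₂ - t₁ - 1), f t := by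
    rw [Finset.sum_image]
    intro a ha b hb hab
    have ha' := (Finset.mem_filter.1 ha).2
    have hb' := (Finset.mem_filter.1 hb).2
    simp only at hab
    omega
  rw [h1]
  refine Finset.sum_le_sum_of_subset_of_nonneg ?_ fun t _ _ => hf t
  intro t ht
  obtain ⟨t₂, ht₂, rfl⟩ := Finset.mem_image.1 ht
  have h2 := Finset.mem_range.1 (Finset.mem_filter.1 ht₂).1
  rw [Finset.mem_range]
  omega

theorem pf_P2 : T_P2 := by
  intro X E Y _ _ _ c Lam h kap hkap hU x
  -- one letter, one first member, one second time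
  have h1 : ∀ (x' : X) (y : Y) (t₁ t₂ : ℕ),
      (if t₁ < t₂ then ∑ e₁, ∑ e₂,
        (if c.Amp Lam t₁ x (c.tgt e₁) y ∧ c.rev.Amp Lam (h - 1 - t₂) x' (c.src e₂) y then
        c.P t₁ x (c.src e₁) * c.use y e₁ * c.P (t₂ - t₁ - 1) (c.tgt e₁) (c.src e₂) * c.use y e₂ *
          c.P (h - 1 - t₂) (c.tgt e₂) x' else 0) else 0) ≤
      ∑ e₁, (if c.Amp Lam t₁ x (c.tgt e₁) y then c.P t₁ x (c.src e₁) * c.use y e₁ else 0) *
        (if t₁ < t₂ then ∑ e₂, c.P (t₂ - t₁ - 1) (c.tgt e₁) (c.src e₂) * c.use y e₂ *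
          c.P (h - 1 - t₂) (c.tgt e₂) x' else 0) := by
    intro x' y t₁ t₂
    by_cases ht : t₁ < t₂
    · simp only [ht, if_true]
      refine Finset.sum_le_sum fun e₁ _ => ?_
      rw [Finset.mul_sum]
      refine Finset.sum_le_sum fun e₂ _ => ?_
      have a1 := c.P_nonneg t₁ x (c.src e₁)
      have a2 := c.use_nonneg y e₁
      have a3 := c.P_nonneg (t₂ - t₁ - 1) (c.tgt e₁) (c.src e₂)
      have a4 := c.use_nonneg y e₂
      have a5 := c.P_nonneg (h - 1 - t₂) (c.tgt e₂) x'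
      by_cases hA : c.Amp Lam t₁ x (c.tgt e₁) y
      · by_cases hB : c.rev.Amp Lam (h - 1 - t₂) x' (c.src e₂) y
        · rw [if_pos ⟨hA, hB⟩, if_pos hA]
          exact le_of_eq (by ring)
        · rw [if_neg fun h => hB h.2, if_pos hA]
          positivity
      · rw [if_neg fun h => hA h.1, if_neg hA, zero_mul]
    · simp only [ht, if_false, mul_zero, Finset.sum_const_zero]
      exact le_rfl
  -- the sum over the second member
  have h2 : ∀ (y : Y) (t₁ : ℕ) (e₁ : E),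
      ∑ t₂ ∈ range h, ∑ x', (if t₁ < t₂ then
        ∑ e₂, c.P (t₂ - t₁ - 1) (c.tgt e₁) (c.src e₂) * c.use y e₂ *
          c.P (h - 1 - t₂) (c.tgt e₂) x' else 0) ≤ kap := by
    intro y t₁ e₁
    refine le_trans ?_ (hU (c.tgt e₁) y)
    refine le_trans ?_ (shift_le (fun t => ∑ e, c.P t (c.tgt e₁) (c.src e) * c.use y e)
      (fun t => Finset.sum_nonneg fun e _ => mul_nonneg (c.P_nonneg _ _ _) (c.use_nonneg _ _))
      h t₁)
    refine Finset.sum_le_sum fun t₂ _ => ?_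
    by_cases ht : t₁ < t₂
    · simp only [ht, if_true]
      rw [Finset.sum_comm]
      refine Finset.sum_le_sum fun e₂ _ => ?_
      rw [← Finset.mul_sum]
      exact mul_le_of_le_one_right (mul_nonneg (c.P_nonneg _ _ _) (c.use_nonneg _ _))
        (c.out_sum_le _ _)
    · simp only [ht, if_false, Finset.sum_const_zero]
      exact le_rfl
  unfold Ch.DE
  calc ∑ x', ∑ y, ∑ t₁ ∈ range h, ∑ t₂ ∈ range h, (if t₁ < t₂ then ∑ e₁, ∑ e₂,
        (if c.Amp Lam t₁ x (c.tgt e₁) y ∧ c.rev.Amp Lam (h - 1 - t₂) x' (c.src e₂) y then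
        c.P t₁ x (c.src e₁) * c.use y e₁ * c.P (t₂ - t₁ - 1) (c.tgt e₁) (c.src e₂) * c.use y e₂ *
          c.P (h - 1 - t₂) (c.tgt e₂) x' else 0) else 0)
      ≤ ∑ x', ∑ y, ∑ t₁ ∈ range h, ∑ t₂ ∈ range h,
        ∑ e₁, (if c.Amp Lam t₁ x (c.tgt e₁) y then c.P t₁ x (c.src e₁) * c.use y e₁ else 0) *
          (if t₁ < t₂ then ∑ e₂, c.P (t₂ - t₁ - 1) (c.tgt e₁) (c.src e₂) * c.use y e₂ *
            c.P (h - 1 - t₂) (c.tgt e₂) x' else 0) :=
        Finset.sum_le_sum fun x' _ => Finset.sum_le_sum fun y _ =>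
          Finset.sum_le_sum fun t₁ _ => Finset.sum_le_sum fun t₂ _ => h1 x' y t₁ t₂
    _ = ∑ y, ∑ t₁ ∈ range h, ∑ e₁,
        (if c.Amp Lam t₁ x (c.tgt e₁) y then c.P t₁ x (c.src e₁) * c.use y e₁ else 0) *
          ∑ t₂ ∈ range h, ∑ x', (if t₁ < t₂ then
            ∑ e₂, c.P (t₂ - t₁ - 1) (c.tgt e₁) (c.src e₂) * c.use y e₂ *
              c.P (h - 1 - t₂) (c.tgt e₂) x' else 0) := by
        rw [Finset.sum_comm]
        refine Finset.sum_congr rfl fun y _ => ?_
        rw [Finset.sum_comm]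
        refine Finset.sum_congr rfl fun t₁ _ => ?_
        rw [Finset.sum_comm]
        simp only [Finset.mul_sum]
        rw [Finset.sum_comm (s := Finset.univ (α := E))]
        refine Finset.sum_congr rfl fun t₂ _ => ?_
        rw [Finset.sum_comm]
    _ ≤ ∑ y, ∑ t₁ ∈ range h, ∑ e₁,
        (if c.Amp Lam t₁ x (c.tgt e₁) y then c.P t₁ x (c.src e₁) * c.use y e₁ else 0) * kap := by
        refine Finset.sum_le_sum fun y _ => Finset.sum_le_sum fun t₁ _ =>
          Finset.sum_le_sum fun e₁ _ => mul_le_mul_of_nonneg_left (h2 y t₁ e₁) ?_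
        split_ifs
        · exact mul_nonneg (c.P_nonneg _ _ _) (c.use_nonneg _ _)
        · exact le_rfl
    _ = _ := by
        rw [Finset.mul_sum]
        refine Finset.sum_congr rfl fun y _ => ?_
        rw [Finset.mul_sum]
        refine Finset.sum_congr rfl fun t₁ _ => ?_
        rw [Finset.mul_sum]
        exact Finset.sum_congr rfl fun e₁ _ => mul_comm _ _

end Pool.Agent.H79.SPW
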