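import Pool.Agent.H90.SPW.Targets

/-! Row RD of `spa_modules`. -/

set_option autoImplicit false

open Finset Pool.Agent.H90.SPW
open scoped BigOperators Classical

namespace Pool.Agent.H79.SPW

theorem SM_le {X E Y : Type} [Fintype X] [Fintype E] [Fintype Y] (c : Ch X E Y) (Lam : ℝ)
    (k h' : ℕ) (x' : X) (t : ℕ) (e : E) (y : Y) : c.SM Lam k h' x' t e y ≤ c.use y e := by
  unfold Ch.SM
  have h1 : ∑ d, (if c.rev.Amp Lam (h' - 1 - t % h') d (c.src e) y then
      c.P (h' - 1 - t % h') (c.tgt e) d else 0) * c.P ((k - 1 - t / h') * h') d x' ≤ 1 := by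
    refine le_trans (Finset.sum_le_sum fun d _ => ?_) (c.out_sum_le (h' - 1 - t % h') (c.tgt e))
    have h2 := c.P_nonneg (h' - 1 - t % h') (c.tgt e) d
    have h3 := c.P_nonneg ((k - 1 - t / h') * h') d x'
    have h4 := c.P_le_one ((k - 1 - t / h') * h') d x'
    split_ifs
    · exact mul_le_of_le_one_right h2 h4
    · rw [zero_mul]
      exact h2
  exact mul_le_of_le_one_right (c.use_nonneg y e) h1

theorem sum_use_le {X E Y : Type} [Fintype X] [Fintype E] [Fintype Y] (c : Ch X E Y) (e : E) :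
    ∑ y, c.use y e ≤ c.wt e := by
  unfold Ch.use
  rcases h : c.lt e with _ | y0
  · simp [c.wt_nonneg e]
  · have h1 : ∀ y, (if (some y0 : Option Y) = some y then c.wt e else 0) =
        if y0 = y then c.wt e else 0 := by
      intro y
      simp
    simp only [h1, Finset.sum_ite_eq, Finset.mem_univ, if_true]
    exact le_rfl

theorem sum_wt_le {X E Y : Type} [Fintype X] [Fintype E] (c : Ch X E Y) :
    ∑ e, c.wt e ≤ Fintype.card X := by
  have h1 : ∑ e, c.wt e = ∑ x, ∑ e, (if c.src e = x then c.wt e else 0) := by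
    rw [Finset.sum_comm]
    refine Finset.sum_congr rfl fun e _ => ?_
    rw [Finset.sum_ite_eq, if_pos (Finset.mem_univ _)]
  rw [h1]
  calc _ ≤ ∑ _x : X, (1 : ℝ) := Finset.sum_le_sum fun x _ => c.out_le x
    _ = _ := by simp

theorem pf_RD : T_RD := by
  intro X E Y _ _ _ c Lam k h' x'
  rw [Finset.sum_comm]
  have h1 : ∀ t ∈ range (k * h'), ∑ y, ∑ e, c.SM Lam k h' x' t e y ≤ (Fintype.card X : ℝ) := by
    intro t _
    rw [Finset.sum_comm]
    refine le_trans (Finset.sum_le_sum fun e _ => ?_) (sum_wt_le c)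
    exact le_trans (Finset.sum_le_sum fun y _ => SM_le c Lam k h' x' t e y) (sum_use_le c e)
  refine le_trans (Finset.sum_le_sum h1) ?_
  rw [Finset.sum_const, Finset.card_range, nsmul_eq_mul]
  push_cast
  exact le_rfl

end Pool.Agent.H79.SPW
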